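import Pool.Agent.Lib.MP_a4d28a_co.Defs

/-!
The local obstruction used for MP_a4d28a_co.

`M` is the 8-vertex neighborly simplicial 3-sphere of the problem (vertices `A,…,H` are `0,…,7`).
Three 3-cells `E, G, H` of the dual `M*` share an edge whose end points are the vertices
`a = AEGH` and `b = BEGH`.  The three pairwise common 2-faces are pentagons.  In each pentagon a
small computation compares the ratios `f(b)/f(a)` for the supporting functionals of two further
2-faces, and the three comparisons are cyclic.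
-/

namespace Pool.Agent.Lib.MP_a4d28a_co

variable {n : ℕ}

set_option maxRecDepth 10000 in
theorem facets_card : ∀ F ∈ facets, F.card = 4 := by decide

theorem facets_isFace : ∀ F ∈ facets, IsFaceM F := by
  intro F hF
  refine ⟨?_, F, hF, subset_rfl⟩
  rw [← Finset.card_pos, facets_card F hF]
  norm_num

theorem singleton_isFace : ∀ x : Fin 8, IsFaceM {x} := by decide

/-- The pentagon computation.  `fX z = cX - lX z`. -/
theorem pentagon (Q : Set (EuclideanSpace ℝ (Fin n))) (hdim : dim Q ≤ 2)
    (a b c α : EuclideanSpace ℝ (Fin n)) (ha : a ∈ Q) (hb : b ∈ Q) (hc : c ∈ Q) (hα : α ∈ Q)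
    (lA ls lp lq : EuclideanSpace ℝ (Fin n) →L[ℝ] ℝ) (cA cs cp cq : ℝ)
    (hAa : cA - lA a = 0) (hAb : 0 < cA - lA b) (hAc : 0 < cA - lA c) (hAα : cA - lA α = 0)
    (hsa : cs - ls a = 0) (hsb : cs - ls b = 0) (hsc : 0 < cs - ls c) (hsα : 0 < cs - ls α)
    (hpa : 0 < cp - lp a) (_hpb : 0 < cp - lp b) (hpc : cp - lp c = 0) (hpα : cp - lp α = 0)
    (_hqa : 0 < cq - lq a) (_hqb : 0 < cq - lq b) (hqc : cq - lq c = 0) (hqα : 0 < cq - lq α) :
    (cp - lp a) * (cq - lq b) < (cp - lp b) * (cq - lq a) := by
  classical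
  -- the three vectors are linearly dependent
  let S := vectorSpan ℝ Q
  have hu : b - a ∈ S := vsub_mem_vectorSpan ℝ hb ha
  have hw : c - a ∈ S := vsub_mem_vectorSpan ℝ hc ha
  have ht : α - a ∈ S := vsub_mem_vectorSpan ℝ hα ha
  let v : Fin 3 → S := ![⟨b - a, hu⟩, ⟨c - a, hw⟩, ⟨α - a, ht⟩]
  have hnot : ¬ LinearIndependent ℝ v := by
    intro h
    have h1 := h.fintype_card_le_finrank
    have h2 : Module.finrank ℝ S ≤ 2 := hdim
    simp at h1
    omega
  rw [Fintype.not_linearIndependent_iff] at hnot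
  obtain ⟨g, hg, i, hi⟩ := hnot
  have hg' : g 0 • (b - a) + g 1 • (c - a) + g 2 • (α - a) = 0 := by
    have := congrArg (fun z : S => (z : EuclideanSpace ℝ (Fin n))) hg
    simpa [Fin.sum_univ_three, v] using this
  have key : ∀ l : EuclideanSpace ℝ (Fin n) →L[ℝ] ℝ,
      g 0 * (l b - l a) + g 1 * (l c - l a) + g 2 * (l α - l a) = 0 := by
    intro l
    have := congrArg l hg'
    simpa using this
  have hz : g 2 ≠ 0 := by
    intro hz
    have h1 := key ls
    rw [hz] at h1
    have hlsab : ls b - ls a = 0 := by linarith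
    rw [hlsab] at h1
    have h2 : g 1 = 0 := by
      have : g 1 * (ls c - ls a) = 0 := by linarith
      rcases mul_eq_zero.1 this with h | h
      · exact h
      · exfalso; linarith
    have h3 := key lA
    rw [hz, h2] at h3
    have h4 : g 0 = 0 := by
      have : g 0 * (lA b - lA a) = 0 := by linarith
      rcases mul_eq_zero.1 this with h | h
      · exact h
      · exfalso; linarith
    fin_cases i <;> simp_all
  -- normalise
  obtain ⟨x, hx⟩ : ∃ x : ℝ, g 0 = -(x * g 2) := ⟨-(g 0) / g 2, by field_simp⟩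
  obtain ⟨y, hy⟩ : ∃ y : ℝ, g 1 = -(y * g 2) := ⟨-(g 1) / g 2, by field_simp⟩
  have key2 : ∀ l : EuclideanSpace ℝ (Fin n) →L[ℝ] ℝ,
      l α - l a = x * (l b - l a) + y * (l c - l a) := by
    intro l
    have h := key l
    rw [hx, hy] at h
    have h' : g 2 * ((l α - l a) - (x * (l b - l a) + y * (l c - l a))) = 0 := by
      linear_combination h
    rcases mul_eq_zero.1 h' with h'' | h''
    · exact absurd h'' hz
    · linarith
  have ks := key2 ls
  have kA := key2 lA
  have kp := key2 lp
  have kq := key2 lq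
  -- y > 0
  have hypos : 0 < y := by
    have h1 : ls α - ls a = y * (ls c - ls a) := by
      have : ls b - ls a = 0 := by linarith
      rw [this] at ks; linarith
    have h2 : ls α - ls a < 0 := by linarith
    have h3 : ls c - ls a < 0 := by linarith
    by_contra hy0
    push Not at hy0
    nlinarith [mul_nonneg_of_nonpos_of_nonpos hy0 h3.le]
  have hxneg : x < 0 := by
    have h1 : x * (lA b - lA a) + y * (lA c - lA a) = 0 := by linarith
    have h2 : lA b - lA a < 0 := by linarith
    have h3 : lA c - lA a < 0 := by linarith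
    by_contra hx0
    push Not at hx0
    nlinarith [mul_nonneg hx0 (neg_nonneg.2 h2.le), mul_pos hypos (neg_pos.2 h3)]
  have e1 : (1 - x - y) * (cp - lp a) + x * (cp - lp b) = 0 := by
    have : y * (cp - lp c) = 0 := by rw [hpc]; ring
    linear_combination kp - this + hpα
  have e2 : (1 - x - y) * (cq - lq a) + x * (cq - lq b) = cq - lq α := by
    have : y * (cq - lq c) = 0 := by rw [hqc]; ring
    linear_combination kq - this
  have e3 : 0 < (cp - lp a) * (cq - lq α) := mul_pos hpa hqα
  have e4 : (cp - lp a) * (cq - lq α)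
      = (-x) * ((cp - lp b) * (cq - lq a) - (cp - lp a) * (cq - lq b)) := by
    rw [← e2]
    linear_combination (cq - lq a) * e1
  rw [e4] at e3
  have := (mul_pos_iff_of_pos_left (neg_pos.2 hxneg)).1 e3
  linarith

/-- The supporting functional of a face `F` of `P`. -/
theorem support {P F : Set (EuclideanSpace ℝ (Fin n))} (h : IsExposed ℝ P F) (hF : F.Nonempty) :
    ∃ (l : EuclideanSpace ℝ (Fin n) →L[ℝ] ℝ) (c : ℝ), (∀ z ∈ F, c - l z = 0) ∧
      ∀ z ∈ P, z ∉ F → 0 < c - l z := by
  obtain ⟨l, hl⟩ := h hF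
  obtain ⟨z0, hz0⟩ := hF
  refine ⟨l, l z0, ?_, ?_⟩
  · intro z hz
    have h1 : z ∈ {x ∈ P | ∀ y ∈ P, l y ≤ l x} := hl ▸ hz
    have h2 : z0 ∈ {x ∈ P | ∀ y ∈ P, l y ≤ l x} := hl ▸ hz0
    have := h1.2 z0 h2.1
    have := h2.2 z h1.1
    linarith
  · intro z hz hzF
    have h2 : z0 ∈ {x ∈ P | ∀ y ∈ P, l y ≤ l x} := hl ▸ hz0
    have h3 := h2.2 z hz
    rcases h3.lt_or_eq with h4 | h4
    · linarith
    · exfalso
      apply hzF
      rw [hl]
      exact ⟨hz, fun y hy => h4 ▸ h2.2 y hy⟩

/-- A proper face has smaller dimension. -/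
theorem dim_face_lt {P F : Set (EuclideanSpace ℝ (Fin n))} (h : IsExposed ℝ P F)
    (hF : F.Nonempty) {z : EuclideanSpace ℝ (Fin n)} (hz : z ∈ P) (hzF : z ∉ F) :
    dim F < dim P := by
  obtain ⟨l, c, h1, h2⟩ := support h hF
  obtain ⟨w, hw⟩ := hF
  have hsub : F ⊆ P := h.subset
  have hle : vectorSpan ℝ F ≤ vectorSpan ℝ P := vectorSpan_mono ℝ hsub
  apply Submodule.finrank_lt_finrank_of_lt
  refine lt_of_le_of_ne hle ?_
  intro heq
  have hmem : z - w ∈ vectorSpan ℝ F := by
    rw [heq]; exact vsub_mem_vectorSpan ℝ hz (hsub hw)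
  have hker : vectorSpan ℝ F ≤ LinearMap.ker (l : EuclideanSpace ℝ (Fin n) →ₗ[ℝ] ℝ) := by
    rw [vectorSpan_def, Submodule.span_le]
    rintro _ ⟨x, hx, y, hy, rfl⟩
    have e1 := h1 x hx
    have e2 := h1 y hy
    simp only [vsub_eq_sub, SetLike.mem_coe, LinearMap.mem_ker, map_sub]
    show l x - l y = 0
    linarith
  have h3 := hker hmem
  simp only [LinearMap.mem_ker, map_sub] at h3
  have h3' : l z - l w = 0 := h3
  have e1 := h1 w hw
  have e2 := h2 z hz hzF
  linarith

/-- The core obstruction: there is no family of convex sets of dimension at most `3` indexed by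
the nonempty faces of `M` with the facial structure of `M*`. -/
theorem core (P : Finset (Fin 8) → Set (EuclideanSpace ℝ (Fin n)))
    (v : Finset (Fin 8) → EuclideanSpace ℝ (Fin n))
    (hface : ∀ G G', IsFaceM G → IsFaceM G' → G ⊆ G' → IsExposed ℝ (P G) (P G'))
    (hv : ∀ F ∈ facets, v F ∈ P F)
    (hnot : ∀ F ∈ facets, ∀ G, IsFaceM G → G.card = 2 → ¬ G ⊆ F → v F ∉ P G)
    (hdim : ∀ x, dim (P {x}) ≤ 3) : False := by
  have hsub : ∀ G G', IsFaceM G → IsFaceM G' → G ⊆ G' → P G' ⊆ P G := fun G G' h1 h2 h3 =>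
    (hface G G' h1 h2 h3).subset
  have hmem : ∀ F ∈ facets, ∀ G, IsFaceM G → G ⊆ F → v F ∈ P G := by
    intro F hF G hG hGF
    have hF' : IsFaceM F := ⟨hG.1.mono hGF, F, hF, subset_rfl⟩
    exact hsub G F hG hF' hGF (hv F hF)
  -- functionals for the pairs x,y
  have sup : ∀ x y : Fin 8, IsFaceM {x, y} → IsFaceM {x} → x ≠ y →
      ∃ (l : EuclideanSpace ℝ (Fin n) →L[ℝ] ℝ) (c : ℝ),
        (∀ F ∈ facets, x ∈ F → y ∈ F → c - l (v F) = 0) ∧
        (∀ F ∈ facets, x ∈ F → y ∉ F → 0 < c - l (v F)) := by
    intro x y hxy hx hne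
    have hex : IsExposed ℝ (P {x}) (P {x, y}) := hface _ _ hx hxy (by simp)
    have hne' : (P {x, y}).Nonempty := by
      obtain ⟨_, F, hF, hsubF⟩ := hxy
      exact ⟨v F, hmem F hF _ ⟨by simp, F, hF, hsubF⟩ hsubF⟩
    obtain ⟨l, c, h1, h2⟩ := support hex hne'
    refine ⟨l, c, ?_, ?_⟩
    · intro F hF hxF hyF
      apply h1
      apply hmem F hF _ hxy
      intro z hz
      simp only [Finset.mem_insert, Finset.mem_singleton] at hz
      rcases hz with rfl | rfl <;> assumption
    · intro F hF hxF hyF
      apply h2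
      · exact hmem F hF _ hx (by simpa using hxF)
      · apply hnot F hF _ hxy (Finset.card_pair hne)
        intro hcon
        exact hyF (hcon (by simp))
  -- dimension of 2-faces
  have hdim2 : ∀ x y : Fin 8, IsFaceM {x, y} → IsFaceM {x} → x ≠ y →
      (∃ F ∈ facets, x ∈ F ∧ y ∉ F) → dim (P {x, y}) ≤ 2 := by
    intro x y hxy hx hne ⟨F, hF, hxF, hyF⟩
    have hex : IsExposed ℝ (P {x}) (P {x, y}) := hface _ _ hx hxy (by simp)
    have hne' : (P {x, y}).Nonempty := by
      obtain ⟨_, F, hF, hsubF⟩ := hxy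
      exact ⟨v F, hmem F hF _ ⟨by simp, F, hF, hsubF⟩ hsubF⟩
    have := dim_face_lt hex hne' (hmem F hF _ hx (by simpa using hxF))
      (hnot F hF _ hxy (Finset.card_pair hne) (fun hcon => hyF (hcon (by simp))))
    have := hdim x
    omega
  -- E = 4, G = 6, H = 7; A = 0, B = 1, C = 2, D = 3, F = 5
  obtain ⟨lD, cD, hD0, hD1⟩ := sup 6 3 (by decide) (by decide) (by decide)
  obtain ⟨lC, cC, hC0, hC1⟩ := sup 7 2 (by decide) (by decide) (by decide)
  obtain ⟨lF, cF, hF0, hF1⟩ := sup 4 5 (by decide) (by decide) (by decide)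
  obtain ⟨lA6, cA6, hA60, hA61⟩ := sup 6 0 (by decide) (by decide) (by decide)
  obtain ⟨lA4, cA4, hA40, hA41⟩ := sup 4 0 (by decide) (by decide) (by decide)
  obtain ⟨l64, c64, h640, h641⟩ := sup 6 4 (by decide) (by decide) (by decide)
  obtain ⟨l67, c67, h670, h671⟩ := sup 6 7 (by decide) (by decide) (by decide)
  obtain ⟨l46, c46, h460, h461⟩ := sup 4 6 (by decide) (by decide) (by decide)
  have d67 := hdim2 6 7 (by decide) (by decide) (by decide) (by decide)
  have d64 := hdim2 6 4 (by decide) (by decide) (by decide) (by decide)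
  have d47 := hdim2 4 7 (by decide) (by decide) (by decide) (by decide)
  have mem : ∀ F ∈ facets, ∀ x y : Fin 8, IsFaceM {x, y} → x ∈ F → y ∈ F → v F ∈ P {x, y} := by
    intro F hF x y hxy hx hy
    apply hmem F hF _ hxy
    intro z hz
    simp only [Finset.mem_insert, Finset.mem_singleton] at hz
    rcases hz with rfl | rfl <;> assumption
  -- pentagon GH = {6,7}: s = E, p = C, q = D
  have i1 := pentagon (P {6, 7}) d67 (v {0,4,6,7}) (v {1,4,6,7}) (v {2,3,6,7}) (v {0,2,6,7})
    (mem _ (by decide) _ _ (by decide) (by decide) (by decide))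
    (mem _ (by decide) _ _ (by decide) (by decide) (by decide))
    (mem _ (by decide) _ _ (by decide) (by decide) (by decide))
    (mem _ (by decide) _ _ (by decide) (by decide) (by decide))
    lA6 l64 lC lD cA6 c64 cC cD
    (hA60 _ (by decide) (by decide) (by decide)) (hA61 _ (by decide) (by decide) (by decide))
    (hA61 _ (by decide) (by decide) (by decide)) (hA60 _ (by decide) (by decide) (by decide))
    (h640 _ (by decide) (by decide) (by decide)) (h640 _ (by decide) (by decide) (by decide))
    (h641 _ (by decide) (by decide) (by decide)) (h641 _ (by decide) (by decide) (by decide))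
    (hC1 _ (by decide) (by decide) (by decide)) (hC1 _ (by decide) (by decide) (by decide))
    (hC0 _ (by decide) (by decide) (by decide)) (hC0 _ (by decide) (by decide) (by decide))
    (hD1 _ (by decide) (by decide) (by decide)) (hD1 _ (by decide) (by decide) (by decide))
    (hD0 _ (by decide) (by decide) (by decide)) (hD1 _ (by decide) (by decide) (by decide))
  -- pentagon EG = {6,4}: s = H, p = D, q = F
  have i2 := pentagon (P {6, 4}) d64 (v {0,4,6,7}) (v {1,4,6,7}) (v {3,4,5,6}) (v {0,3,4,6})
    (mem _ (by decide) _ _ (by decide) (by decide) (by decide))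
    (mem _ (by decide) _ _ (by decide) (by decide) (by decide))
    (mem _ (by decide) _ _ (by decide) (by decide) (by decide))
    (mem _ (by decide) _ _ (by decide) (by decide) (by decide))
    lA6 l67 lD lF cA6 c67 cD cF
    (hA60 _ (by decide) (by decide) (by decide)) (hA61 _ (by decide) (by decide) (by decide))
    (hA61 _ (by decide) (by decide) (by decide)) (hA60 _ (by decide) (by decide) (by decide))
    (h670 _ (by decide) (by decide) (by decide)) (h670 _ (by decide) (by decide) (by decide))
    (h671 _ (by decide) (by decide) (by decide)) (h671 _ (by decide) (by decide) (by decide))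
    (hD1 _ (by decide) (by decide) (by decide)) (hD1 _ (by decide) (by decide) (by decide))
    (hD0 _ (by decide) (by decide) (by decide)) (hD0 _ (by decide) (by decide) (by decide))
    (hF1 _ (by decide) (by decide) (by decide)) (hF1 _ (by decide) (by decide) (by decide))
    (hF0 _ (by decide) (by decide) (by decide)) (hF1 _ (by decide) (by decide) (by decide))
  -- pentagon EH = {4,7}: s = G, p = F, q = C
  have i3 := pentagon (P {4, 7}) d47 (v {0,4,6,7}) (v {1,4,6,7}) (v {2,4,5,7}) (v {0,4,5,7})
    (mem _ (by decide) _ _ (by decide) (by decide) (by decide))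
    (mem _ (by decide) _ _ (by decide) (by decide) (by decide))
    (mem _ (by decide) _ _ (by decide) (by decide) (by decide))
    (mem _ (by decide) _ _ (by decide) (by decide) (by decide))
    lA4 l46 lF lC cA4 c46 cF cC
    (hA40 _ (by decide) (by decide) (by decide)) (hA41 _ (by decide) (by decide) (by decide))
    (hA41 _ (by decide) (by decide) (by decide)) (hA40 _ (by decide) (by decide) (by decide))
    (h460 _ (by decide) (by decide) (by decide)) (h460 _ (by decide) (by decide) (by decide))
    (h461 _ (by decide) (by decide) (by decide)) (h461 _ (by decide) (by decide) (by decide))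
    (hF1 _ (by decide) (by decide) (by decide)) (hF1 _ (by decide) (by decide) (by decide))
    (hF0 _ (by decide) (by decide) (by decide)) (hF0 _ (by decide) (by decide) (by decide))
    (hC1 _ (by decide) (by decide) (by decide)) (hC1 _ (by decide) (by decide) (by decide))
    (hC0 _ (by decide) (by decide) (by decide)) (hC1 _ (by decide) (by decide) (by decide))
  -- positivity of the six numbers
  have pCa := hC1 {0,4,6,7} (by decide) (by decide) (by decide)
  have pCb := hC1 {1,4,6,7} (by decide) (by decide) (by decide)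
  have pDa := hD1 {0,4,6,7} (by decide) (by decide) (by decide)
  have pDb := hD1 {1,4,6,7} (by decide) (by decide) (by decide)
  have pFa := hF1 {0,4,6,7} (by decide) (by decide) (by decide)
  have pFb := hF1 {1,4,6,7} (by decide) (by decide) (by decide)
  generalize cC - lC (v {0,4,6,7}) = Ca at *
  generalize cC - lC (v {1,4,6,7}) = Cb at *
  generalize cD - lD (v {0,4,6,7}) = Da at *
  generalize cD - lD (v {1,4,6,7}) = Db at *
  generalize cF - lF (v {0,4,6,7}) = Fa at *
  generalize cF - lF (v {1,4,6,7}) = Fb at *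
  -- i1 : Ca * Db < Cb * Da;  i2 : Da * Fb < Db * Fa;  i3 : Fa * Cb < Fb * Ca
  have j1 : Ca * Db * Fb * Da < Cb * Da * (Db * Fa) := by
    calc Ca * Db * Fb * Da = (Ca * Db) * (Da * Fb) := by ring
      _ < (Cb * Da) * (Db * Fa) := by
        apply mul_lt_mul i1 i2.le (by positivity) (by positivity)
  have j2 : (Fa * Cb) * (Da * Db) < (Fb * Ca) * (Da * Db) :=
    mul_lt_mul_of_pos_right i3 (by positivity)
  nlinarith [j1, j2]

end Pool.Agent.Lib.MP_a4d28a_co
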