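import Mathlib

/-!
Definitions for MP_a4d28a_co: the simplicial 3-sphere `M`, its dual `M*`, polytopal 3-complexes
and 3-diagrams.

Faces of a convex polytope are expressed by Mathlib's `IsExposed ℝ P Q`: the set `Q` is empty or
is the set of all points of `P` at which some (continuous) linear functional attains its maximum
over `P` (the zero functional gives `Q = P`).  For a convex polytope `P` these are exactly the
faces of `P`, including `P` itself and the empty face.
-/

namespace Pool.Agent.Lib.MP_a4d28a_co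

/-- The 20 facets of the simplicial 3-sphere `M`; the vertices `A,…,H` are written `0,…,7`. -/
def facets : Finset (Finset (Fin 8)) :=
  {{0,1,2,3}, {0,1,2,5}, {0,1,3,5}, {0,2,3,6}, {0,2,5,7}, {0,2,6,7}, {0,3,4,5}, {0,3,4,6},
   {0,4,5,7}, {0,4,6,7}, {1,2,3,7}, {1,2,4,5}, {1,2,4,7}, {1,3,5,6}, {1,3,6,7}, {1,4,5,6},
   {1,4,6,7}, {2,3,6,7}, {2,4,5,7}, {3,4,5,6}}

/-- `G` is a nonempty face of `M`. -/
def IsFaceM (G : Finset (Fin 8)) : Prop := G.Nonempty ∧ ∃ F ∈ facets, G ⊆ F

instance (G : Finset (Fin 8)) : Decidable (IsFaceM G) := by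
  unfold IsFaceM; infer_instance

/-- A convex polytope in `ℝⁿ`: the convex hull of a finite set of points. -/
def IsPolytope {n : ℕ} (P : Set (EuclideanSpace ℝ (Fin n))) : Prop :=
  ∃ s : Finset (EuclideanSpace ℝ (Fin n)), P = convexHull ℝ (s : Set (EuclideanSpace ℝ (Fin n)))

/-- The dimension of a set in `ℝⁿ`: the dimension of its affine hull. -/
noncomputable def dim {n : ℕ} (P : Set (EuclideanSpace ℝ (Fin n))) : ℕ :=
  Module.finrank ℝ (vectorSpan ℝ P)

/-- `𝒞` is a 3-complex in `ℝⁿ`: a finite family of convex polytopes, containing every nonempty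
face of each of its members, in which any two members meet in a common (possibly empty) face,
and the largest dimension of a member is `3`.  (The empty set may or may not be a member.) -/
structure IsThreeComplex {n : ℕ} (𝒞 : Set (Set (EuclideanSpace ℝ (Fin n)))) : Prop where
  finite : 𝒞.Finite
  polytope : ∀ P ∈ 𝒞, IsPolytope P
  faces : ∀ P ∈ 𝒞, ∀ Q, IsExposed ℝ P Q → Q.Nonempty → Q ∈ 𝒞
  inter : ∀ P ∈ 𝒞, ∀ Q ∈ 𝒞, IsExposed ℝ P (P ∩ Q) ∧ IsExposed ℝ Q (P ∩ Q)
  dim_le : ∀ P ∈ 𝒞, dim P ≤ 3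
  dim_eq : ∃ P ∈ 𝒞, dim P = 3

/-- The complex `𝒞` is combinatorially equivalent to `M*`: there is an order isomorphism between
the nonempty members of `𝒞`, ordered by inclusion, and the face poset of `M*`, that is, the set of
nonempty faces of `M` ordered by reverse inclusion. -/
def EquivalentToDual {n : ℕ} (𝒞 : Set (Set (EuclideanSpace ℝ (Fin n)))) : Prop :=
  Nonempty ({P : Set (EuclideanSpace ℝ (Fin n)) // P ∈ 𝒞 ∧ P.Nonempty} ≃o
    ({G : Finset (Fin 8) // IsFaceM G})ᵒᵈ)

/-- `𝒟` is a 3-diagram in `ℝ³` with union `K`: a 3-complex in `ℝ³` whose union is the convex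
3-polytope `K`, and whose nonempty members contained in the boundary of `K` are exactly the
nonempty proper faces of `K`. -/
structure IsThreeDiagram (𝒟 : Set (Set (EuclideanSpace ℝ (Fin 3))))
    (K : Set (EuclideanSpace ℝ (Fin 3))) : Prop where
  complex : IsThreeComplex 𝒟
  union : ⋃₀ 𝒟 = K
  polytope : IsPolytope K
  full_dim : dim K = 3
  boundary : ∀ P : Set (EuclideanSpace ℝ (Fin 3)), P.Nonempty →
    ((P ∈ 𝒟 ∧ P ⊆ frontier K) ↔ (IsExposed ℝ K P ∧ P ≠ K))

/-- `M*` with the chosen 3-cell dual to the vertex `X` of `M` is represented by the 3-diagram `𝒟`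
with union `K` (basis `X`): there is a bijection `f` from the faces of `M*` (nonempty faces of `M`)
onto the nonempty cells of `𝒟 ∪ {K}` which sends the cell `X` to `K` and for which incidences
correspond: `G ⊆ G'` in `M` exactly when the cell `f G'` is a face of the cell `f G`. -/
def RepresentedWithBasis (𝒟 : Set (Set (EuclideanSpace ℝ (Fin 3))))
    (K : Set (EuclideanSpace ℝ (Fin 3))) (X : Fin 8) : Prop :=
  ∃ f : {G : Finset (Fin 8) // IsFaceM G} ≃
      {P : Set (EuclideanSpace ℝ (Fin 3)) // (P ∈ 𝒟 ∨ P = K) ∧ P.Nonempty},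
    (∀ G : {G : Finset (Fin 8) // IsFaceM G}, G.1 = {X} → (f G).1 = K) ∧
    ∀ G G' : {G : Finset (Fin 8) // IsFaceM G}, G.1 ⊆ G'.1 ↔ IsExposed ℝ (f G).1 (f G').1

end Pool.Agent.Lib.MP_a4d28a_co
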