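import Pool.Agent.Lib.MP_a4d28a_co.Core

/-!
MP_a4d28a_co, Q2: the dual `M*` of the 8-vertex neighborly 3-sphere `M` is not representable by a
3-diagram, whichever 3-cell is taken as basis.
-/

namespace Pool.Agent.Lib.MP_a4d28a_co.NotThreeDiagram

open Pool.Agent.Lib.MP_a4d28a_co

/-- `M*` is not represented by any 3-diagram, for any choice of its 3-cell as basis. -/
theorem notThreeDiagram (X : Fin 8) (𝒟 : Set (Set (EuclideanSpace ℝ (Fin 3))))
    (K : Set (EuclideanSpace ℝ (Fin 3))) (h𝒟 : IsThreeDiagram 𝒟 K) :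
    ¬ RepresentedWithBasis 𝒟 K X := by
  classical
  rintro ⟨f, hfX, hf⟩
  have hX : IsFaceM {X} := singleton_isFace X
  let P : Finset (Fin 8) → Set (EuclideanSpace ℝ (Fin 3)) :=
    fun G => if h : IsFaceM G then (f ⟨G, h⟩).1 else ∅
  have hP : ∀ G (h : IsFaceM G), P G = (f ⟨G, h⟩).1 := fun G h => dif_pos h
  have hPne : ∀ G, IsFaceM G → (P G).Nonempty := fun G h => by
    rw [hP G h]; exact (f ⟨G, h⟩).2.2
  have hPexp : ∀ G G', IsFaceM G → IsFaceM G' → (IsExposed ℝ (P G) (P G') ↔ G ⊆ G') := by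
    intro G G' h h'
    rw [hP G h, hP G' h']
    exact (hf ⟨G, h⟩ ⟨G', h'⟩).symm
  have hPX : P {X} = K := by rw [hP _ hX]; exact hfX ⟨{X}, hX⟩ rfl
  have hPmem : ∀ G, IsFaceM G → G ≠ {X} → P G ∈ 𝒟 := by
    intro G h hne
    rw [hP G h]
    rcases (f ⟨G, h⟩).2.1 with h1 | h1
    · exact h1
    · exfalso
      apply hne
      have h2 : f ⟨G, h⟩ = f ⟨{X}, hX⟩ := by
        apply Subtype.ext
        rw [h1, hfX ⟨{X}, hX⟩ rfl]
      have h3 := f.injective h2
      exact congrArg Subtype.val h3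
  have hfac := facets_isFace
  have hcard := facets_card
  let v : Finset (Fin 8) → EuclideanSpace ℝ (Fin 3) :=
    fun F => if h : (P F).Nonempty then h.some else 0
  have hv : ∀ F ∈ facets, v F ∈ P F := by
    intro F hF
    have hne := hPne F (hfac F hF)
    have : v F = hne.some := dif_pos hne
    rw [this]
    exact hne.some_mem
  refine core P v ?_ hv ?_ ?_
  · intro G G' h h' hGG'
    exact (hPexp G G' h h').2 hGG'
  · intro F hF G hG hG2 hGF hvG
    have hF' := hfac F hF
    have hFX : F ≠ {X} := by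
      intro h0
      have := hcard F hF
      rw [h0] at this
      simp at this
    have hGX : G ≠ {X} := by
      intro h0
      rw [h0] at hG2
      simp at hG2
    have hFm := hPmem F hF' hFX
    have hGm := hPmem G hG hGX
    have hI : (P F ∩ P G).Nonempty := ⟨v F, hv F hF, hvG⟩
    obtain ⟨hexpF, hexpG⟩ := h𝒟.complex.inter (P F) hFm (P G) hGm
    have hImem : P F ∩ P G ∈ 𝒟 := h𝒟.complex.faces _ hFm _ hexpF hI
    obtain ⟨H, hH⟩ := f.surjective ⟨P F ∩ P G, Or.inl hImem, hI⟩
    have hH' : P H.1 = P F ∩ P G := by rw [hP H.1 H.2]; exact congrArg Subtype.val hH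
    have hFH : F ⊆ H.1 := by
      rw [← hPexp F H.1 hF' H.2, hH']
      exact hexpF
    obtain ⟨_, F', hF'', hHF'⟩ := H.2
    have hFF' : F = F' := Finset.eq_of_subset_of_card_le (hFH.trans hHF')
      (by rw [hcard F hF, hcard F' hF''])
    have hHF : H.1 = F := Finset.Subset.antisymm (hFF' ▸ hHF') hFH
    rw [hHF] at hH'
    apply hGF
    rw [← hPexp G F hG hF', hH']
    exact hexpG
  · intro x
    have hx : IsFaceM {x} := singleton_isFace x
    by_cases hxX : ({x} : Finset (Fin 8)) = {X}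
    · rw [hxX, hPX]
      exact h𝒟.full_dim.le
    · exact h𝒟.complex.dim_le _ (hPmem _ hx hxX)

end Pool.Agent.Lib.MP_a4d28a_co.NotThreeDiagram
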